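import Pool.Agent.Lib.MP_7ea278_ag.Fp.Relax3

namespace Pool.Agent.Results.MP_7ea278_ag.TwoSums

/-- A discrete polymatroid on `Fin n`: a nonempty finite set of vectors of natural numbers,
closed under passing to smaller vectors and satisfying the augmentation axiom. -/
def IsDiscretePolymatroid {n : ℕ} (P : Finset (Fin n → ℕ)) : Prop :=
  P.Nonempty ∧ (∀ u ∈ P, ∀ v : Fin n → ℕ, v ≤ u → v ∈ P) ∧
    ∀ u ∈ P, ∀ v ∈ P, ∑ i, u i < ∑ i, v i → ∃ i, u i < v i ∧ u + Pi.single i 1 ∈ P

/-- The bases: the elements of maximal modulus. -/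
def bases {n : ℕ} (P : Finset (Fin n → ℕ)) : Finset (Fin n → ℕ) :=
  P.filter fun u => ∀ v ∈ P, ∑ i, v i ≤ ∑ i, u i

/-- The monomial map `y_b ↦ x^b`, one variable `y_b` for each base `b`. -/
noncomputable def toricMap (K : Type) [Field K] {n : ℕ} (B : Finset (Fin n → ℕ)) :
    MvPolynomial B K →ₐ[K] MvPolynomial (Fin n) K :=
  MvPolynomial.aeval fun b => ∏ i, (MvPolynomial.X i) ^ (b.1 i)

/-- The toric ideal, the kernel of the monomial map. -/
noncomputable def toricIdeal (K : Type) [Field K] {n : ℕ} (B : Finset (Fin n → ℕ)) :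
    Ideal (MvPolynomial B K) := RingHom.ker (toricMap K B)

/-- The base ring, the quotient by the toric ideal. -/
abbrev BaseRing (K : Type) [Field K] {n : ℕ} (B : Finset (Fin n → ℕ)) : Type :=
  MvPolynomial B K ⧸ toricIdeal K B

/-- The component of degree one of the base ring: the span of the classes of the variables. -/
noncomputable def degOne (K : Type) [Field K] {n : ℕ} (B : Finset (Fin n → ℕ)) :
    Submodule K (BaseRing K B) :=
  Submodule.span K (Set.range fun b : B => Ideal.Quotient.mk (toricIdeal K B) (MvPolynomial.X b))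

/-- A standard graded `K`-algebra `R` with component `V` of degree one is Koszul: its residue
field has a linear free resolution `⋯ → R ^ r 2 → R ^ r 1 → R ^ r 0 = R`. The maps are given by
matrices with entries in `V`, the image of the first map is `R₊`, and the sequence is exact. -/
def IsKoszulAlg (K R : Type) [Field K] [CommRing R] [Algebra K R] (V : Submodule K R) : Prop :=
  ∃ (r : ℕ → ℕ) (A : ∀ i, Matrix (Fin (r i)) (Fin (r (i + 1))) R),
    r 0 = 1 ∧ (∀ i p q, A i p q ∈ V) ∧
    (∀ v : Fin (r 0) → R, (∀ p, v p ∈ Ideal.span (V : Set R)) ↔ ∃ w, v = (A 0).mulVec w) ∧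
    ∀ i, ∀ v : Fin (r (i + 1)) → R, (A i).mulVec v = 0 ↔ ∃ w, v = (A (i + 1)).mulVec w

/-- The base ring over `K` of the discrete polymatroid `P` is Koszul. -/
def KoszulBaseRing (K : Type) [Field K] {n : ℕ} (P : Finset (Fin n → ℕ)) : Prop :=
  IsKoszulAlg K (BaseRing K (bases P)) (degOne K (bases P))

/-- The section of `P` by the unit cube with lower corner `q`: the `0/1` vectors `b` such that
`b + q` is a base of `P`. -/
def cubeSection {n : ℕ} (P : Finset (Fin n → ℕ)) (q : Fin n → ℕ) : Set (Fin n → ℕ) :=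
  {b | (∀ i, b i ≤ 1) ∧ b + q ∈ bases P}

/-- `B` is, for some labelling `σ` of the ground set by the residues modulo seven, the set of
bases of the Fano matroid with the seven lines `a, a + 1, a + 3`: the sets of three elements
which are not a line. In particular the ground set has seven elements. -/
def IsFano {n : ℕ} (B : Set (Fin n → ℕ)) : Prop :=
  ∃ σ : Fin 7 ≃ Fin n, B = {b | (∀ i, b i ≤ 1) ∧ ∑ i, b i = 3 ∧
    ∀ a : Fin 7, b (σ a) + b (σ (a + 1)) + b (σ (a + 3)) ≤ 2}

/-- `B` is, for some labelling, the set of bases of the dual of the Fano matroid: the sets of four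
elements which meet every line. -/
def IsFanoDual {n : ℕ} (B : Set (Fin n → ℕ)) : Prop :=
  ∃ σ : Fin 7 ≃ Fin n, B = {b | (∀ i, b i ≤ 1) ∧ ∑ i, b i = 4 ∧
    ∀ a : Fin 7, 1 ≤ b (σ a) + b (σ (a + 1)) + b (σ (a + 3))}

/-- `B` is the set of bases, as `0/1` vectors, of a matroid on `Fin n`: the set of bases of a
discrete polymatroid all of whose elements are `0/1` vectors. -/
def IsMatroid {n : ℕ} (B : Set (Fin n → ℕ)) : Prop :=
  ∃ P : Finset (Fin n → ℕ), IsDiscretePolymatroid P ∧ (∀ u ∈ P, ∀ i, u i ≤ 1) ∧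
    (bases P : Set (Fin n → ℕ)) = B

/-- The direct sum of `A` and `B`: the vectors whose first `n` coordinates form an element of `A`
and whose last `m` coordinates form an element of `B`. -/
def directSum {n m : ℕ} (A : Set (Fin n → ℕ)) (B : Set (Fin m → ℕ)) : Set (Fin (n + m) → ℕ) :=
  {w | (fun i => w (Fin.castAdd m i)) ∈ A ∧ (fun j => w (Fin.natAdd n j)) ∈ B}

/-- The two-sum of `A` and `B`, the last elements of the two ground sets being the base points:
the vectors `(a, b)` such that `(a, 1)` is in `A` and `(b, 0)` is in `B`, or `(a, 0)` is in `A` and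
`(b, 1)` is in `B`. -/
def twoSum {n m : ℕ} (A : Set (Fin (n + 1) → ℕ)) (B : Set (Fin (m + 1) → ℕ)) :
    Set (Fin (n + m) → ℕ) :=
  {w | ((Fin.snoc (α := fun _ => ℕ) (fun i => w (Fin.castAdd m i)) 1 : Fin (n + 1) → ℕ) ∈ A ∧
      (Fin.snoc (α := fun _ => ℕ) (fun j => w (Fin.natAdd n j)) 0 : Fin (m + 1) → ℕ) ∈ B) ∨
    ((Fin.snoc (α := fun _ => ℕ) (fun i => w (Fin.castAdd m i)) 0 : Fin (n + 1) → ℕ) ∈ A ∧
      (Fin.snoc (α := fun _ => ℕ) (fun j => w (Fin.natAdd n j)) 1 : Fin (m + 1) → ℕ) ∈ B)}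

/-- The smallest class of sets of `0/1` vectors which contains, given by their bases, the matroids
with Koszul base ring over `K`, the matroids on at most seven elements except the Fano matroid and
its dual, and the matroids of rank or corank at most two; contains the sets of `0/1` vectors of
constant sum cut out by bounds on the sums over intervals; is closed under minors (deleted and
contracted elements are kept as loops), duals, relabelling, direct sums and two-sums; contains a
set of `0/1` vectors of constant sum if it contains the two parts into which a hyperplane cuts it,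
provided every sum of two elements strictly separated by the hyperplane is also the sum of two
elements on one side; and is closed under relaxing a circuit-hyperplane `h` of a matroid. -/
inductive Built (K : Type) [Field K] : (n : ℕ) → Set (Fin n → ℕ) → Prop
  | koszul {n : ℕ} (P : Finset (Fin n → ℕ)) (hP : IsDiscretePolymatroid P)
      (h01 : ∀ u ∈ P, ∀ i, u i ≤ 1) (hK : KoszulBaseRing K P) :
      Built K n (bases P : Set (Fin n → ℕ))
  | small {n : ℕ} {B : Set (Fin n → ℕ)} (hn : n ≤ 7) (hB : IsMatroid B) (h1 : ¬ IsFano B)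
      (h2 : ¬ IsFanoDual B) : Built K n B
  | rank {n : ℕ} {B : Set (Fin n → ℕ)} (hB : IsMatroid B) (r : ℕ) (hr : r ≤ 2 ∨ n ≤ r + 2)
      (h : ∀ b ∈ B, ∑ i, b i = r) : Built K n B
  | interval {n : ℕ} {B : Set (Fin n → ℕ)} (h01 : ∀ b ∈ B, ∀ i, b i ≤ 1) (d : ℕ)
      (hd : ∀ b ∈ B, ∑ i, b i = d) (lo hi : Fin n → Fin n → ℕ)
      (h : ∀ b, b ∈ B ↔ ∀ i j, i ≤ j → lo i j ≤ ∑ k ∈ Finset.Icc i j, b k ∧
        ∑ k ∈ Finset.Icc i j, b k ≤ hi i j) : Built K n B
  | contract {n : ℕ} {B : Set (Fin n → ℕ)} (hB : Built K n B) (q : Fin n → ℕ) :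
      Built K n {b | b + q ∈ B}
  | delete {n : ℕ} {B : Set (Fin n → ℕ)} (hB : Built K n B) (S : Set (Fin n)) :
      Built K n {b | b ∈ B ∧ ∀ i ∈ S, b i = 0}
  | dual {n : ℕ} {B : Set (Fin n → ℕ)} (hB : Built K n B) :
      Built K n {b | (∀ i, b i ≤ 1) ∧ (fun i => 1 - b i) ∈ B}
  | relabel {n : ℕ} {B : Set (Fin n → ℕ)} (hB : Built K n B) (σ : Equiv.Perm (Fin n)) :
      Built K n {b | b ∘ σ ∈ B}
  | sum {n m : ℕ} {A : Set (Fin n → ℕ)} {B : Set (Fin m → ℕ)} (hA : Built K n A)
      (hB : Built K m B) : Built K (n + m) (directSum A B)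
  | sum2 {n m : ℕ} {A : Set (Fin (n + 1) → ℕ)} {B : Set (Fin (m + 1) → ℕ)}
      (hA : Built K (n + 1) A) (hB : Built K (m + 1) B) : Built K (n + m) (twoSum A B)
  | cut {n : ℕ} {B : Set (Fin n → ℕ)} (h01 : ∀ b ∈ B, ∀ i, b i ≤ 1) (d : ℕ)
      (hd : ∀ b ∈ B, ∑ i, b i = d) (w : Fin n → ℤ) (c : ℤ)
      (hE : ∀ a ∈ B, ∀ b ∈ B, c < ∑ i, w i * (a i : ℤ) → ∑ i, w i * (b i : ℤ) < c →
        ∃ a' ∈ B, ∃ b' ∈ B, a + b = a' + b' ∧
          ((c ≤ ∑ i, w i * (a' i : ℤ) ∧ c ≤ ∑ i, w i * (b' i : ℤ)) ∨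
            (∑ i, w i * (a' i : ℤ) ≤ c ∧ ∑ i, w i * (b' i : ℤ) ≤ c)))
      (h1 : Built K n {b | b ∈ B ∧ c ≤ ∑ i, w i * (b i : ℤ)})
      (h2 : Built K n {b | b ∈ B ∧ ∑ i, w i * (b i : ℤ) ≤ c}) : Built K n B
  | relax {n : ℕ} {B : Set (Fin n → ℕ)} (hB : Built K n B) (h : Fin n → ℕ)
      (hM : IsMatroid (insert h B))
      (hN : ∀ i j, h i = 1 → h j = 0 → Function.update (Function.update h i 0) j 1 ∈ B) :
      Built K n (insert h B)

private theorem inv (K : Type) [Field K] {n : ℕ} {B : Set (Fin n → ℕ)} (h : Built K n B) :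
    MP7ea278.Inv K B := by
  induction h with
  | koszul P hP h01 hK => exact MP7ea278.Inv_koszul K hP h01 hK
  | small hn hB h1 h2 => exact MP7ea278.Inv_small hn hB h1 h2
  | rank hB r hr h => exact MP7ea278.Inv_low hB r hr h
  | interval h01 d hd lo hi h => exact MP7ea278.Inv_interval h01 d hd lo hi h
  | contract _ q ih => exact MP7ea278.Inv_contract ih q
  | delete _ S ih => exact MP7ea278.Inv_delete ih S
  | dual _ ih => exact MP7ea278.Inv_dual ih
  | relabel _ σ ih => exact MP7ea278.Inv_relabel ih σ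
  | sum _ _ ih1 ih2 => exact MP7ea278.Inv_dsum ih1 ih2
  | sum2 _ _ ih1 ih2 => exact MP7ea278.Inv_tsum ih1 ih2
  | cut h01 d hd w c hE _ _ ih1 ih2 => exact MP7ea278.Inv_cut h01 d hd w c hE ih1 ih2
  | relax _ h hM hN ih => exact MP7ea278.Inv_relax ih h hM hN

/-- A discrete polymatroid of positive rank all of whose nonempty unit cube sections are in the
class has a Koszul base ring over `K`. -/
theorem result (K : Type) [Field K] (n : ℕ) (P : Finset (Fin n → ℕ))
    (hP : IsDiscretePolymatroid P) (h0 : P ≠ {0})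
    (hS : ∀ q : Fin n → ℕ, (cubeSection P q).Nonempty → Built K n (cubeSection P q)) :
    KoszulBaseRing K P :=
  MP7ea278.koszul_of_Inv K hP h0 fun q hq => inv K (hS q hq)

/-- The case of a matroid: a matroid of positive rank in the class has a Koszul base ring. -/
theorem matroid_case (K : Type) [Field K] (n : ℕ) (P : Finset (Fin n → ℕ))
    (hP : IsDiscretePolymatroid P) (h01 : ∀ u ∈ P, ∀ i, u i ≤ 1) (h0 : P ≠ {0})
    (hB : Built K n (bases P : Set (Fin n → ℕ))) : KoszulBaseRing K P := by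
  refine result K n P hP h0 fun q _ => ?_
  have h1 : cubeSection P q = {b | b + q ∈ (bases P : Set (Fin n → ℕ))} := by
    ext b
    constructor
    · exact fun h => h.2
    · intro h
      refine ⟨fun i => ?_, h⟩
      have h2 : b + q ∈ bases P := h
      rw [bases, Finset.mem_filter] at h2
      have h3 := h01 _ h2.1 i
      rw [Pi.add_apply] at h3
      omega
  rw [h1]
  exact Built.contract hB q

end Pool.Agent.Results.MP_7ea278_ag.TwoSums
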